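import Pool.Agent.Lib.MP_64d474_lc.BX.Defs99
import Pool.Agent.Lib.MP_64d474_lc.MG.Net99

/-!
# The symbolic matrix of a block matrix
-/

set_option autoImplicit false

open Finset Module Matrix

namespace Pool.Agent.Lib.MP_64d474_lc.BX

open Pool.Agent.Lib.MP_64d474_lc.Kal
open Pool.Agent.Lib.MP_64d474_lc.Kal.Net (tmap leaves_tmap)
open Pool.Agent.Lib.MP_64d474_lc.MF (GoodV goodV_embed cutV_univ good_of_goodV)

section Big

variable {F : Type*} [Field F] {Q : Type} [Fintype Q] [DecidableEq Q] {ι E : Q → Type}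
  [∀ q, Fintype (ι q)] [∀ q, DecidableEq (ι q)] [∀ q, Fintype (E q)] [∀ q, DecidableEq (E q)]
  {m v ρ : ℕ}

/-- the rows of all blocks -/
def vc (A : ∀ q, Matrix (ι q) (Fin ρ) F) : Matrix (Σ q, ι q) (Fin ρ) F :=
  Matrix.of fun i u => A i.1 i.2 u

/-- the pieces -/
def PP (P : ∀ q, E q → Matrix (ι q) (ι q) F) (U V : ∀ q, Matrix (ι q) (Fin v) F)
    (S : Q → Matrix (Fin ρ) (Fin v) F) (T : Q → Matrix (Fin v) (Fin ρ) F) :
    (Σ q, (E q ⊕ Unit)) → Matrix ((Σ q, ι q) ⊕ Fin ρ) ((Σ q, ι q) ⊕ Fin ρ) F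
  | ⟨q, .inl p⟩ => fromBlocks
      (blockDiagonal' (Pi.single q (P q p) : ∀ q', Matrix (ι q') (ι q') F)) 0 0 0
  | ⟨q, .inr _⟩ => fromBlocks 0 (vc (Pi.single q (V q * T q) : ∀ q', Matrix (ι q') (Fin ρ) F))
      (-(vc (Pi.single q (U q * (S q)ᵀ) : ∀ q', Matrix (ι q') (Fin ρ) F))ᵀ) 0

/-- the variables of the pieces -/
def KK (κ : ∀ q, E q → Option (Fin m)) : (Σ q, (E q ⊕ Unit)) → Option (Fin m)
  | ⟨q, .inl p⟩ => κ q p
  | ⟨_, .inr _⟩ => none

theorem bd_single (q : Q) (A : Matrix (ι q) (ι q) F) (q₁ q₂ : Q) (i : ι q₁) (j : ι q₂)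
    (h : q₁ ≠ q ∨ q₂ ≠ q) :
    blockDiagonal' (Pi.single q A : ∀ q', Matrix (ι q') (ι q') F) ⟨q₁, i⟩ ⟨q₂, j⟩ = 0 := by
  by_cases h12 : q₁ = q₂
  · subst h12
    rw [blockDiagonal'_apply_eq, Pi.single_eq_of_ne (by tauto)]
    rfl
  · exact blockDiagonal'_apply_ne _ _ _ h12

theorem mat_PP (P : ∀ q, E q → Matrix (ι q) (ι q) F) (κ : ∀ q, E q → Option (Fin m))
    (U V : ∀ q, Matrix (ι q) (Fin v) F)
    (S : Q → Matrix (Fin ρ) (Fin v) F) (T : Q → Matrix (Fin v) (Fin ρ) F) (x : Fin m → F) :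
    mat (PP P U V S T) (KK κ) x = fromBlocks (blockDiagonal' fun q => mat (P q) (κ q) x)
      (vc fun q => V q * T q) (-(vc fun q => U q * (S q)ᵀ)ᵀ) 0 := by
  have hsum : mat (PP P U V S T) (KK κ) x =
      ∑ q, ((∑ p, cf (κ q) x p • PP P U V S T ⟨q, .inl p⟩) + PP P U V S T ⟨q, .inr ()⟩) := by
    rw [mat, Fintype.sum_sigma]
    refine Finset.sum_congr rfl fun q _ => ?_
    rw [Fintype.sum_sum_type]
    congr 1
    rw [Fintype.sum_unique]
    show cf (KK κ) x ⟨q, .inr ()⟩ • _ = _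
    rw [show cf (KK κ) x ⟨q, .inr ()⟩ = 1 from rfl, one_smul]
  rw [hsum]
  ext a b
  rw [Matrix.sum_apply]
  rcases a with ⟨q₁, i⟩ | u <;> rcases b with ⟨q₂, j⟩ | u'
  · rw [fromBlocks_apply₁₁]
    have h1 : ∀ q, ((∑ p, cf (κ q) x p • PP P U V S T ⟨q, .inl p⟩) +
        PP P U V S T ⟨q, .inr ()⟩) (.inl ⟨q₁, i⟩) (.inl ⟨q₂, j⟩) =
        ∑ p, cf (κ q) x p * blockDiagonal' (Pi.single q (P q p) : ∀ q', Matrix (ι q') (ι q') F)
          ⟨q₁, i⟩ ⟨q₂, j⟩ := by
      intro q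
      rw [Matrix.add_apply, Matrix.sum_apply]
      simp [PP]
    simp only [h1]
    by_cases h12 : q₁ = q₂
    · subst h12
      rw [blockDiagonal'_apply_eq, Finset.sum_eq_single q₁]
      · rw [mat, Matrix.sum_apply]
        refine Finset.sum_congr rfl fun p _ => ?_
        rw [blockDiagonal'_apply_eq, Pi.single_eq_same, Matrix.smul_apply, smul_eq_mul]
      · intro q _ hq
        exact Finset.sum_eq_zero fun p _ => by
          rw [bd_single q _ _ _ _ _ (Or.inl hq.symm), mul_zero]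
      · intro h
        exact absurd (Finset.mem_univ _) h
    · rw [blockDiagonal'_apply_ne _ _ _ h12]
      refine Finset.sum_eq_zero fun q _ => Finset.sum_eq_zero fun p _ => ?_
      rw [blockDiagonal'_apply_ne _ _ _ h12, mul_zero]
  · rw [fromBlocks_apply₁₂]
    have h1 : ∀ q, ((∑ p, cf (κ q) x p • PP P U V S T ⟨q, .inl p⟩) +
        PP P U V S T ⟨q, .inr ()⟩) (.inl ⟨q₁, i⟩) (.inr u') =
        (Pi.single q (V q * T q) : ∀ q', Matrix (ι q') (Fin ρ) F) q₁ i u' := by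
      intro q
      rw [Matrix.add_apply, Matrix.sum_apply]
      simp [PP, vc]
    simp only [h1]
    rw [Finset.sum_eq_single q₁]
    · rw [Pi.single_eq_same]
      rfl
    · intro q _ hq
      rw [Pi.single_eq_of_ne hq.symm]
      rfl
    · intro h
      exact absurd (Finset.mem_univ _) h
  · rw [fromBlocks_apply₂₁]
    have h1 : ∀ q, ((∑ p, cf (κ q) x p • PP P U V S T ⟨q, .inl p⟩) +
        PP P U V S T ⟨q, .inr ()⟩) (.inr u) (.inl ⟨q₂, j⟩) =
        -(Pi.single q (U q * (S q)ᵀ) : ∀ q', Matrix (ι q') (Fin ρ) F) q₂ j u := by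
      intro q
      rw [Matrix.add_apply, Matrix.sum_apply]
      simp [PP, vc]
    simp only [h1]
    rw [Finset.sum_eq_single q₂]
    · rw [Pi.single_eq_same]
      rfl
    · intro q _ hq
      rw [Pi.single_eq_of_ne hq.symm]
      simp
    · intro h
      exact absurd (Finset.mem_univ _) h
  · rw [fromBlocks_apply₂₂]
    refine Finset.sum_eq_zero fun q _ => ?_
    rw [Matrix.add_apply, Matrix.sum_apply]
    simp [PP]

theorem bd_mul_vc (M : ∀ q, Matrix (ι q) (ι q) F) (Y : ∀ q, Matrix (ι q) (Fin ρ) F) :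
    blockDiagonal' M * vc Y = vc fun q => M q * Y q := by
  ext ⟨q, i⟩ u
  rw [Matrix.mul_apply, Fintype.sum_sigma, Finset.sum_eq_single q]
  · show _ = (M q * Y q) i u
    rw [Matrix.mul_apply]
    refine Finset.sum_congr rfl fun j _ => ?_
    rw [blockDiagonal'_apply_eq]
    rfl
  · intro q' _ hq
    exact Finset.sum_eq_zero fun j _ => by
      rw [blockDiagonal'_apply_ne _ _ _ hq.symm, zero_mul]
  · intro h
    exact absurd (Finset.mem_univ _) h

theorem vc_mul_vc (A B : ∀ q, Matrix (ι q) (Fin ρ) F) :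
    (vc A)ᵀ * vc B = ∑ q, (A q)ᵀ * B q := by
  ext u u'
  rw [Matrix.mul_apply, Fintype.sum_sigma, Matrix.sum_apply]
  refine Finset.sum_congr rfl fun q _ => ?_
  rw [Matrix.mul_apply]
  rfl

/-- the determinant -/
theorem det_PP (P : ∀ q, E q → Matrix (ι q) (ι q) F) (κ : ∀ q, E q → Option (Fin m))
    (U V : ∀ q, Matrix (ι q) (Fin v) F)
    (S : Q → Matrix (Fin ρ) (Fin v) F) (T : Q → Matrix (Fin v) (Fin ρ) F) (x : Fin m → F)
    (W : Q → Matrix (Fin v) (Fin v) F)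
    (h : ∀ q, (mat (P q) (κ q) x).det ≠ 0 ∧
      ∃ Y : Matrix (ι q) (Fin v) F, mat (P q) (κ q) x * Y = V q ∧ (U q)ᵀ * Y = W q) :
    (mat (PP P U V S T) (KK κ) x).det ≠ 0 ↔ (∑ q, S q * W q * T q).det ≠ 0 := by
  choose hd Y hY hW using h
  have hN : (blockDiagonal' fun q => mat (P q) (κ q) x).det ≠ 0 := by
    have h1 : (blockDiagonal' fun q => mat (P q) (κ q) x) *
        (blockDiagonal' fun q => (mat (P q) (κ q) x)⁻¹) = 1 := by
      rw [← blockDiagonal'_mul, ← blockDiagonal'_one]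
      congr 1
      funext q
      exact Matrix.mul_nonsing_inv _ (isUnit_iff_ne_zero.2 (hd q))
    intro h0
    have h2 := congrArg Matrix.det h1
    rw [Matrix.det_mul, h0, zero_mul, Matrix.det_one] at h2
    exact zero_ne_one h2
  rw [mat_PP, FR.P3.det_fb _ _ _ _ (vc fun q => Y q * T q) hN (by
    rw [bd_mul_vc]
    congr 1
    funext q
    rw [← Matrix.mul_assoc, hY])]
  have e : (0 : Matrix (Fin ρ) (Fin ρ) F) - -(vc fun q => U q * (S q)ᵀ)ᵀ *
      (vc fun q => Y q * T q) = ∑ q, S q * W q * T q := by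
    rw [Matrix.neg_mul, sub_neg_eq_add, zero_add, vc_mul_vc]
    refine Finset.sum_congr rfl fun q _ => ?_
    rw [Matrix.transpose_mul, Matrix.transpose_transpose, Matrix.mul_assoc,
      ← Matrix.mul_assoc (U q)ᵀ, hW, ← Matrix.mul_assoc]
  rw [e]
  constructor
  · intro h1
    exact right_ne_zero_of_mul h1
  · intro h1
    exact mul_ne_zero hN h1

/-- cuts inside a block -/
theorem good_PP (P : ∀ q, E q → Matrix (ι q) (ι q) F) (κ : ∀ q, E q → Option (Fin m))
    (U V : ∀ q, Matrix (ι q) (Fin v) F)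
    (S : Q → Matrix (Fin ρ) (Fin v) F) (T : Q → Matrix (Fin v) (Fin ρ) F) (q : Q)
    (t : BT (E q)) (h : GoodV (P q) (κ q) (U q) (V q) t) :
    Good (PP P U V S T) (fun p => KK κ p ≠ none) v
      (tmap (fun p => (⟨q, .inl p⟩ : Σ q, (E q ⊕ Unit))) t) := by
  have hinj : Function.Injective fun p : E q => (⟨q, .inl p⟩ : Σ q, (E q ⊕ Unit)) := by
    intro p p' hp
    simpa using hp
  have hf : Function.Injective fun i : ι q => (Sum.inl ⟨q, i⟩ : (Σ q, ι q) ⊕ Fin ρ) := by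
    intro i i' hi
    simpa using hi
  refine good_of_goodV _ _ (0 : Matrix ((Σ q, ι q) ⊕ Fin ρ) (Fin v) F) 0 _
    (goodV_embed (P q) _ (κ q) (KK κ) (U q) (V q) 0 0 (fun i => Sum.inl ⟨q, i⟩)
      (fun p => ⟨q, .inl p⟩) hf hinj (fun p => rfl) ?_ ?_ ?_ ?_ ?_ ⟨0, fun i b => by simp⟩
      ⟨0, fun i b => by simp⟩ t h)
  · intro p i j
    show blockDiagonal' (Pi.single q (P q p) : ∀ q', Matrix (ι q') (ι q') F) ⟨q, i⟩ ⟨q, j⟩ = _
    rw [blockDiagonal'_apply_eq, Pi.single_eq_same]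
  · rintro p (⟨q₁, i⟩ | u) (⟨q₂, j⟩ | u') ha
    · have h1 : q₁ ≠ q := by
        rintro rfl
        exact ha ⟨i, rfl⟩
      exact bd_single q _ _ _ _ _ (Or.inl h1)
    · rfl
    · rfl
    · rfl
  · rintro p (⟨q₁, i⟩ | u) (⟨q₂, j⟩ | u') ha
    · have h1 : q₂ ≠ q := by
        rintro rfl
        exact ha ⟨j, rfl⟩
      exact bd_single q _ _ _ _ _ (Or.inr h1)
    · rfl
    · rfl
    · rfl
  · rintro ⟨q', p | p⟩ hq
    · have h1 : q' ≠ q := by
        rintro rfl
        exact hq ⟨p, rfl⟩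
      refine ⟨0, fun i b => ?_⟩
      rw [Matrix.mul_zero, Matrix.zero_apply]
      rcases b with ⟨q₂, j⟩ | u'
      · exact bd_single q' _ _ _ _ _ (Or.inl h1.symm)
      · rfl
    · by_cases h1 : q' = q
      · subst h1
        refine ⟨fromCols 0 (T q'), fun i b => ?_⟩
        rw [mul_fromCols]
        rcases b with ⟨q₂, j⟩ | u'
        · rw [fromCols_apply_inl, Matrix.mul_zero]
          rfl
        · rw [fromCols_apply_inr]
          show (Pi.single q' (V q' * T q') : ∀ q', Matrix (ι q') (Fin ρ) F) q' i u' = _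
          rw [Pi.single_eq_same]
      · refine ⟨0, fun i b => ?_⟩
        rw [Matrix.mul_zero, Matrix.zero_apply]
        rcases b with ⟨q₂, j⟩ | u'
        · rfl
        · show (Pi.single q' (V q' * T q') : ∀ q', Matrix (ι q') (Fin ρ) F) q i u' = _
          rw [Pi.single_eq_of_ne (Ne.symm h1)]
          rfl
  · rintro ⟨q', p | p⟩ hq
    · have h1 : q' ≠ q := by
        rintro rfl
        exact hq ⟨p, rfl⟩
      refine ⟨0, fun i b => ?_⟩
      rw [Matrix.mul_zero, Matrix.zero_apply]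
      rcases b with ⟨q₂, j⟩ | u'
      · exact bd_single q' _ _ _ _ _ (Or.inr h1.symm)
      · rfl
    · by_cases h1 : q' = q
      · subst h1
        refine ⟨fromCols 0 (-(S q')ᵀ), fun i b => ?_⟩
        rw [mul_fromCols]
        rcases b with ⟨q₂, j⟩ | u'
        · rw [fromCols_apply_inl, Matrix.mul_zero]
          rfl
        · rw [fromCols_apply_inr, Matrix.mul_neg, Matrix.neg_apply]
          show -(Pi.single q' (U q' * (S q')ᵀ) : ∀ q', Matrix (ι q') (Fin ρ) F) q' i u' = _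
          rw [Pi.single_eq_same]
      · refine ⟨0, fun i b => ?_⟩
        rw [Matrix.mul_zero, Matrix.zero_apply]
        rcases b with ⟨q₂, j⟩ | u'
        · rfl
        · show -(Pi.single q' (U q' * (S q')ᵀ) : ∀ q', Matrix (ι q') (Fin ρ) F) q i u' = _
          rw [Pi.single_eq_of_ne (Ne.symm h1)]
          simp

end Big

end Pool.Agent.Lib.MP_64d474_lc.BX
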