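import Pool.Agent.Lib.MP_64d474_lc.MG.Defs99

/-!
# Block matrices of small branch width whose blocks are formulas
-/

set_option autoImplicit false

open Finset Matrix

namespace Pool.Agent.Lib.MP_64d474_lc.BX

open Pool.Agent.Lib.MP_64d474_lc.Kal Pool.Agent.Lib.MP_64d474_lc.MG

/-- `Width w t L`: for every inner node of the tree `t` of positions, at most `w` rows and at most
`w` columns have both a position below the node and a position that is in `L` or in the rest of
`t` -/
def Width {a b : ℕ} (w : ℕ) : BT (Fin a × Fin b) → List (Fin a × Fin b) → Prop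
  | .nil, _ => True
  | .leaf _, _ => True
  | .node l r, L =>
    (((l.leaves ++ r.leaves).map Prod.fst).toFinset ∩ (L.map Prod.fst).toFinset).card ≤ w ∧
    (((l.leaves ++ r.leaves).map Prod.snd).toFinset ∩ (L.map Prod.snd).toFinset).card ≤ w ∧
    Width w l (r.leaves ++ L) ∧ Width w r (l.leaves ++ L)

/-- `Val x φ t V`: at the point `x` all formulas `φ q` with `q` in `t` can be evaluated, and `V` is
the matrix of their values, with zero blocks outside `t` -/
def Val {F : Type*} [Field F] {a b v m : ℕ} (x : Fin m → F) (φ : Fin a × Fin b → MFm F v m)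
    (t : BT (Fin a × Fin b)) (V : Matrix (Fin a × Fin v) (Fin b × Fin v) F) : Prop :=
  ∃ W : Fin a × Fin b → Matrix (Fin v) (Fin v) F, (∀ q ∈ t.leaves, (φ q).Val x (W q)) ∧
    (∀ q, q ∉ t.leaves → W q = 0) ∧ V = Matrix.of fun i j => W (i.1, j.1) i.2 j.2

/-- the symbolic matrix of a minor of a block matrix of formulas -/
def StNetB.{u} : Prop :=
  ∀ (F : Type u) [Field F] (a b v m e w ρ : ℕ) (φ : Fin a × Fin b → MFm F v m)
    (t : BT (Fin a × Fin b)) (I : Fin ρ → Fin a × Fin v) (J : Fin ρ → Fin b × Fin v),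
    Function.Injective I → Function.Injective J → 1 ≤ w → t.leaves.Nodup → Width w t [] →
    (∀ q ∈ t.leaves, (φ q).DegLe e) →
    ∃ (ι E : Type) (_ : Fintype ι) (_ : DecidableEq ι) (_ : Fintype E) (_ : DecidableEq E)
      (P : E → Matrix ι ι F) (κ : E → Option (Fin m)) (T : BT E),
      (∀ (x : Fin m → F) (W : Fin a × Fin b → Matrix (Fin v) (Fin v) F),
        (∀ q ∈ t.leaves, (φ q).Val x (W q)) → (∀ q, q ∉ t.leaves → W q = 0) →
        ((mat P κ x).det ≠ 0 ↔
          (Matrix.of fun u u' : Fin ρ => W ((I u).1, (J u').1) (I u).2 (J u').2).det ≠ 0)) ∧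
      Good P (fun p => κ p ≠ none) (v * w) T ∧
      T.leaves.Nodup ∧ (∀ p, p ∈ T.leaves ↔ κ p ≠ none) ∧
      (∀ k, (univ.filter fun p => κ p = some k).card =
        ∑ q ∈ t.leaves.toFinset, (φ q).occ k) ∧
      ∀ p, κ p ≠ none → (P p).rank ≤ e * v

end Pool.Agent.Lib.MP_64d474_lc.BX
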