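import Pool.Agent.Lib.MP_64d474_lc.BX.Net99

/-!
# Row N for block matrices of formulas
-/

set_option autoImplicit false

open Finset Module Matrix

namespace Pool.Agent.Lib.MP_64d474_lc.BX

open Pool.Agent.Lib.MP_64d474_lc.Kal Pool.Agent.Lib.MP_64d474_lc.MG
open Pool.Agent.Lib.MP_64d474_lc.Kal.Net (tmap leaves_tmap)
open Pool.Agent.Lib.MP_64d474_lc.MF (GoodV)

section sel

variable {F : Type*} [Field F] {a b v ρ : ℕ} {Q : Type} (π : Q → Fin a × Fin b)

theorem selS_mul (I : Fin ρ → Fin a × Fin v) (q : Q) (A : Matrix (Fin v) (Fin v) F) (u : Fin ρ)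
    (β : Fin v) : (selS (F := F) π I q * A) u β = if (π q).1 = (I u).1 then A (I u).2 β else 0 := by
  rw [Matrix.mul_apply]
  by_cases h : (π q).1 = (I u).1
  · rw [if_pos h, Finset.sum_eq_single (I u).2]
    · have e : I u = ((π q).1, (I u).2) := Prod.ext h.symm rfl
      rw [selS, Matrix.of_apply, if_pos e, one_mul]
    · intro α _ hα
      rw [selS, Matrix.of_apply, if_neg, zero_mul]
      intro h1
      exact hα (congrArg Prod.snd h1).symm
    · intro h1
      exact absurd (Finset.mem_univ _) h1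
  · rw [if_neg h]
    refine Finset.sum_eq_zero fun α _ => ?_
    rw [selS, Matrix.of_apply, if_neg, zero_mul]
    intro h1
    exact h (congrArg Prod.fst h1).symm

theorem sel_mul (I : Fin ρ → Fin a × Fin v) (J : Fin ρ → Fin b × Fin v) (q : Q)
    (A : Matrix (Fin v) (Fin v) F) (u u' : Fin ρ) :
    (selS (F := F) π I q * A * selT (F := F) π J q) u u' =
      if π q = ((I u).1, (J u').1) then A (I u).2 (J u').2 else 0 := by
  rw [Matrix.mul_apply]
  simp only [selS_mul]
  by_cases h : π q = ((I u).1, (J u').1)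
  · rw [if_pos h, Finset.sum_eq_single (J u').2]
    · have e1 : (π q).1 = (I u).1 := congrArg Prod.fst h
      have e2 : J u' = ((π q).2, (J u').2) := Prod.ext (congrArg Prod.snd h).symm rfl
      rw [if_pos e1, selT, Matrix.of_apply, if_pos e2, mul_one]
    · intro α _ hα
      have e3 : ¬ (J u' = ((π q).2, α)) := fun h1 => hα (congrArg Prod.snd h1).symm
      rw [selT, Matrix.of_apply, if_neg e3, mul_zero]
    · intro h1
      exact absurd (Finset.mem_univ _) h1
  · rw [if_neg h]
    refine Finset.sum_eq_zero fun β _ => ?_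
    by_cases h1 : (π q).1 = (I u).1
    · have e3 : ¬ (J u' = ((π q).2, β)) := fun h2 =>
        h (Prod.ext h1 (congrArg Prod.fst h2).symm)
      rw [selT, Matrix.of_apply, if_neg e3, mul_zero]
    · rw [if_neg h1, zero_mul]

end sel

section tree

variable {F : Type*} [Field F] {a b v m ρ : ℕ} {Q : Type} [Fintype Q] [DecidableEq Q]
  (π : Q → Fin a × Fin b) {ι E : Q → Type}
  [∀ q, Fintype (ι q)] [∀ q, DecidableEq (ι q)] [∀ q, Fintype (E q)] [∀ q, DecidableEq (E q)]

theorem good_tree (P : ∀ q, E q → Matrix (ι q) (ι q) F) (κ : ∀ q, E q → Option (Fin m))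
    (U V : ∀ q, Matrix (ι q) (Fin v) F)
    (I : Fin ρ → Fin a × Fin v) (J : Fin ρ → Fin b × Fin v) (hI : Function.Injective I)
    (hJ : Function.Injective J) (w : ℕ) (τ : Fin a × Fin b → BT (Σ q, (E q ⊕ Unit)))
    (hτ : ∀ q p, p ∈ (τ q).leaves ↔ π p.1 = q ∧ KK κ p ≠ none)
    (hg : ∀ q, Good (PP P U V (selS π I) (selT π J)) (fun p => KK κ p ≠ none) (v * w) (τ q))
    (t : BT (Fin a × Fin b)) (L : List (Fin a × Fin b)) (hW : Width w t L)
    (hs : ∀ q, π q ∈ t.leaves ∨ π q ∈ L) :
    Good (PP P U V (selS π I) (selT π J)) (fun p => KK κ p ≠ none) (v * w) (expand τ t) := by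
  classical
  induction t generalizing L with
  | nil => trivial
  | leaf q => exact hg q
  | node l r hl hr =>
    obtain ⟨w1, w2, w3, w4⟩ := hW
    refine ⟨hl _ w3 ?_, hr _ w4 ?_, ?_⟩
    · intro q
      rcases hs q with h | h
      · rcases List.mem_append.1 h with h | h
        · exact Or.inl h
        · exact Or.inr (List.mem_append_left _ h)
      · exact Or.inr (List.mem_append_right _ h)
    · intro q
      rcases hs q with h | h
      · rcases List.mem_append.1 h with h | h
        · exact Or.inr (List.mem_append_left _ h)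
        · exact Or.inl h
      · exact Or.inr (List.mem_append_right _ h)
    · refine ⟨univ.filter fun p => π p.1 ∈ l.leaves ++ r.leaves, ?_, ?_⟩
      · intro p hp
        rw [Finset.mem_filter, leaves_expand, leaves_expand, ← List.flatMap_append,
          List.mem_flatMap]
        constructor
        · rintro ⟨-, h⟩
          exact ⟨π p.1, h, (hτ _ _).2 ⟨rfl, hp⟩⟩
        · rintro ⟨q, hq, hpq⟩
          rw [((hτ _ _).1 hpq).1]
          exact ⟨Finset.mem_univ _, hq⟩
      · refine cut_PP π P U V I J hI hJ w (fun q => q ∈ l.leaves ++ r.leaves) _ _ _ _ ?_ ?_ w1 w2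
        · intro q h
          exact ⟨List.mem_toFinset.2 (List.mem_map_of_mem h),
            List.mem_toFinset.2 (List.mem_map_of_mem h)⟩
        · intro q h0
          rcases hs q with h | h
          · exact absurd h h0
          · exact ⟨List.mem_toFinset.2 (List.mem_map_of_mem h),
              List.mem_toFinset.2 (List.mem_map_of_mem h)⟩

end tree

theorem stNetB.{u} : StNetB.{u} := by
  classical
  intro F _ a b v m e w ρ φ t I J hI hJ hw hnd hW hdeg
  have hinv : ∀ q : {q : Fin a × Fin b // q ∈ t.leaves}, MG.Inv e (φ q.1) :=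
    fun q => inv_all e _ (hdeg q.1 q.2)
  unfold MG.Inv at hinv
  choose ι E i1 i2 i3 i4 P κ U V tr hv hg hndr hl ho hr using hinv
  set π : {q : Fin a × Fin b // q ∈ t.leaves} → Fin a × Fin b := Subtype.val with hπ
  set τ : Fin a × Fin b → BT (Σ q, (E q ⊕ Unit)) := fun q =>
    if h : q ∈ t.leaves then
      tmap (fun p => (⟨⟨q, h⟩, Sum.inl p⟩ : Σ q, (E q ⊕ Unit))) (tr ⟨q, h⟩) else BT.nil with hτd
  have hτ1 : ∀ q : {q : Fin a × Fin b // q ∈ t.leaves}, τ q.1 =
      tmap (fun p => (⟨q, Sum.inl p⟩ : Σ q, (E q ⊕ Unit))) (tr q) := by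
    intro q
    rw [hτd]
    exact dif_pos q.2
  have hτ0 : ∀ q, q ∉ t.leaves → τ q = BT.nil := by
    intro q hq
    rw [hτd]
    exact dif_neg hq
  have hτ : ∀ q p, p ∈ (τ q).leaves ↔ π p.1 = q ∧ KK κ p ≠ none := by
    intro q p
    by_cases h : q ∈ t.leaves
    · rw [show τ q = _ from hτ1 ⟨q, h⟩, leaves_tmap, List.mem_map]
      constructor
      · rintro ⟨p', hp', rfl⟩
        exact ⟨rfl, (hl ⟨q, h⟩ p').1 hp'⟩
      · rintro ⟨h1, h2⟩
        obtain ⟨q', o⟩ := p
        have h3 : q' = ⟨q, h⟩ := Subtype.ext h1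
        subst h3
        rcases o with p' | p'
        · exact ⟨p', (hl _ p').2 h2, rfl⟩
        · exact absurd rfl h2
    · rw [hτ0 q h]
      constructor
      · intro h1
        simp [BT.leaves] at h1
      · rintro ⟨h1, -⟩
        exact absurd (h1 ▸ p.1.2) h
  have hgτ : ∀ q, Good (PP P U V (selS π I) (selT π J)) (fun p => KK κ p ≠ none) (v * w)
      (τ q) := by
    intro q
    by_cases h : q ∈ t.leaves
    · rw [show τ q = _ from hτ1 ⟨q, h⟩]
      exact good_mono _ _ (Nat.le_mul_of_pos_right v hw) _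
        (good_PP P κ U V (selS π I) (selT π J) ⟨q, h⟩ _ (hg ⟨q, h⟩))
    · rw [hτ0 q h]
      trivial
  refine ⟨(Σ q, ι q) ⊕ Fin ρ, Σ q, (E q ⊕ Unit), inferInstance, inferInstance, inferInstance,
    inferInstance, PP P U V (selS π I) (selT π J), KK κ, expand τ t, ?_, ?_, ?_, ?_, ?_, ?_⟩
  · intro x W hWv hW0
    rw [det_PP P κ U V (selS π I) (selT π J) x (fun q => W q.1)
      (fun q => hv q x (W q.1) (hWv q.1 q.2))]
    have e1 : ∑ q : {q : Fin a × Fin b // q ∈ t.leaves},
        selS (F := F) π I q * W q.1 * selT (F := F) π J q =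
        Matrix.of fun u u' : Fin ρ => W ((I u).1, (J u').1) (I u).2 (J u').2 := by
      ext u u'
      rw [Matrix.sum_apply, Matrix.of_apply]
      simp only [sel_mul]
      by_cases h : ((I u).1, (J u').1) ∈ t.leaves
      · rw [Finset.sum_eq_single ⟨((I u).1, (J u').1), h⟩]
        · rw [if_pos rfl]
        · intro q _ hq
          rw [if_neg]
          intro h1
          exact hq (Subtype.ext h1)
        · intro h1
          exact absurd (Finset.mem_univ _) h1
      · rw [hW0 _ h, Matrix.zero_apply]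
        refine Finset.sum_eq_zero fun q _ => ?_
        rw [if_neg]
        intro h1
        exact h (h1 ▸ q.2)
    rw [e1]
  · exact good_tree π P κ U V I J hI hJ w τ hτ hgτ t [] hW fun q => Or.inl q.2
  · rw [leaves_expand, List.nodup_flatMap]
    refine ⟨fun q hq => ?_, ?_⟩
    · rw [show τ q = _ from hτ1 ⟨q, hq⟩, leaves_tmap]
      refine (hndr ⟨q, hq⟩).map ?_
      intro p p' hp
      simpa using hp
    · refine List.Pairwise.imp ?_ hnd
      intro q q' hqq p hp hp'
      exact hqq (((hτ _ _).1 hp).1.symm.trans ((hτ _ _).1 hp').1)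
  · intro p
    rw [leaves_expand, List.mem_flatMap]
    constructor
    · rintro ⟨q, -, hq⟩
      exact ((hτ _ _).1 hq).2
    · intro hp
      exact ⟨π p.1, p.1.2, (hτ _ _).2 ⟨rfl, hp⟩⟩
  · intro k
    rw [Finset.card_filter, Fintype.sum_sigma]
    rw [Finset.sum_subtype t.leaves.toFinset (p := fun q => q ∈ t.leaves)
      (fun q => List.mem_toFinset) fun q => (φ q).occ k]
    refine Finset.sum_congr rfl fun q _ => ?_
    rw [Fintype.sum_sum_type, ← ho q k]
    have e2 : (∑ p : Unit, if KK κ (⟨q, Sum.inr p⟩ : Σ q, (E q ⊕ Unit)) = some k then 1 else 0) =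
        0 := by
      simp [KK]
    rw [e2, add_zero]
    rfl
  · rintro ⟨q, p | p⟩ hp
    · exact (rank_corner _ _ _).trans ((rank_single q (P q p)).trans (hr q p hp))
    · exact absurd rfl hp

end Pool.Agent.Lib.MP_64d474_lc.BX
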