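import Pool.Agent.Lib.MP_64d474_lc.BX.Fin99
import Pool.Agent.Lib.MP_64d474_lc.MG.Main99
import Pool.Agent.Lib.MP_64d474_lc.YnPoint

/-!
# Points at which a block matrix of formulas is defined and has large rank
-/

set_option autoImplicit false

open Finset MvPolynomial

namespace Pool.Agent.Lib.MP_64d474_lc.BX

open Pool.Agent.Lib.MP_64d474_lc.Kal Pool.Agent.Lib.MP_64d474_lc.MG

universe u

theorem both_prod (h13 : StBoth.{u}) (F : Type u) [Field F] [CharZero F] {κ : Type*}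
    [DecidableEq κ] (m β N : ℕ) (b : Fin m → Fin β) (G : κ → MvPolynomial (Fin m) F)
    (S : Finset κ) (hG : ∀ q ∈ S, ∃ (z : Fin N → F) (y : Fin β → F), eval (gen b z y) (G q) ≠ 0) :
    ∃ (z : Fin N → F) (y : Fin β → F), eval (gen b z y) (∏ q ∈ S, G q) ≠ 0 := by
  induction S using Finset.induction_on with
  | empty => exact ⟨0, 0, by simp⟩
  | insert q S hq ih =>
    rw [Finset.prod_insert hq]
    exact h13 F m β N b _ _ (hG q (Finset.mem_insert_self _ _))
      (ih fun q' hq' => hG q' (Finset.mem_insert_of_mem hq'))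

theorem mainBX (hT : StMainTree.{u}) (h9 : StBal) (h12 : StGrid.{u}) (h13 : StBoth.{u})
    (h14 : StDet.{u}) (hN : StNetB.{u}) (F : Type u) [Field F] [CharZero F]
    (a b v m e w : ℕ) (φ : Fin a × Fin b → MFm F v m) (t : BT (Fin a × Fin b))
    (s g R β N D : ℕ) (hv : 1 ≤ v) (hw : 1 ≤ w) (hnd : t.leaves.Nodup) (hW : Width w t [])
    (hde : ∀ q ∈ t.leaves, (φ q).DegLe e)
    (hs : ∑ q ∈ t.leaves.toFinset, (φ q).leaves ≤ s)
    (hg : ∑ q ∈ t.leaves.toFinset, (φ q).invs ≤ g) (hR : 1 ≤ R) (hβ : 2 * (s / R) + 2 ≤ β)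
    (hRN : 18 * R * (v * w) ^ 2 ≤ N) (hD : s * v * e * (g + 1) ≤ D) (x : Fin m → F)
    (V : Matrix (Fin a × Fin v) (Fin b × Fin v) F) (hV : Val x φ t V) :
    ∃ h ∈ hits m β N D, ∃ U, Val (fun k => (h k : F)) φ t U ∧ V.rank ≤ U.rank := by
  classical
  obtain ⟨W, hW1, hW0, rfl⟩ := hV
  obtain ⟨ρ, hρ, I, J, hIJ⟩ : ∃ ρ,
      (Matrix.of fun (i : Fin a × Fin v) (j : Fin b × Fin v) => W (i.1, j.1) i.2 j.2).rank = ρ ∧
      ∃ (I : Fin ρ → Fin a × Fin v) (J : Fin ρ → Fin b × Fin v),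
      ((Matrix.of fun (i : Fin a × Fin v) (j : Fin b × Fin v) =>
        W (i.1, j.1) i.2 j.2).submatrix I J).det ≠ 0 :=
    ⟨_, rfl, Pool.Agent.Lib.MP_64d474_lc.exists_minor _⟩
  have hI : Function.Injective I := by
    intro u v huv
    by_contra hne
    exact hIJ (Matrix.det_zero_of_row_eq hne (by ext j; simp [huv]))
  have hJ : Function.Injective J := by
    intro u v huv
    by_contra hne
    exact hIJ (Matrix.det_zero_of_column_eq hne (by intro j; simp [huv]))
  have hocc : ∑ k, (∑ q ∈ t.leaves.toFinset, (φ q).occ k) ≤ s := by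
    rw [Finset.sum_comm]
    simp only [MFm.sum_occ]
    exact hs
  obtain ⟨c, hcm, hc⟩ := exists_bal h9 (fun k => ∑ q ∈ t.leaves.toFinset, (φ q).occ k) hR hocc hβ
  have hv2 : 18 * R * v ^ 2 ≤ N := by
    refine le_trans (Nat.mul_le_mul_left _ ?_) hRN
    exact Nat.pow_le_pow_left (Nat.le_mul_of_pos_right v hw) 2
  have hG : ∀ q ∈ t.leaves, ∃ G : MvPolynomial (Fin m) F,
      G.totalDegree ≤ (φ q).invs * ((φ q).leaves * (e * v)) ∧
        (∃ (z : Fin N → F) (y : Fin β → F), eval (gen c z y) G ≠ 0) ∧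
        ∀ h, eval h G ≠ 0 → ∃ U, (φ q).Val h U := by
    intro q hq
    refine exists_poly99 hT h13 h14 F m v e R β N hv hR hv2 c _ hc x (φ q) (hde q hq) ?_
      (W q) (hW1 q hq)
    intro k
    exact Finset.single_le_sum (f := fun q => (φ q).occ k) (fun _ _ => Nat.zero_le _)
      (List.mem_toFinset.2 hq)
  choose! G g1 g2 g3 using hG
  have hGG := both_prod h13 F m β N c G t.leaves.toFinset
    fun q hq => g2 q (List.mem_toFinset.1 hq)
  obtain ⟨ι, E, _, _, _, _, P, κ, T, hdet, hgood, hndT, hleafT, hcnt, hrk⟩ :=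
    hN F a b v m e w ρ φ t I J hI hJ hw hnd hW hde
  obtain ⟨z₁, y₁, hzy⟩ := hT F ι E P m κ T (v * w) R β N hgood hndT hleafT (Nat.mul_pos hv hw) hR
    hRN c (fun i => class_of_count κ c _ hcnt R i (hc i)) x ((hdet x W hW1 hW0).2 hIJ)
  obtain ⟨f, f1, -, f2⟩ := h14 F ι E P m κ
  have f3 : f.totalDegree ≤ s * (e * v) := by
    refine f2.trans ?_
    calc ∑ q ∈ univ.filter (fun q => κ q ≠ none), (P q).rank
        ≤ ∑ q ∈ univ.filter (fun q => κ q ≠ none), e * v :=
          sum_le_sum fun q hq => hrk q (mem_filter.1 hq).2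
      _ = (univ.filter fun q => κ q ≠ none).card * (e * v) := by rw [sum_const, smul_eq_mul]
      _ ≤ s * (e * v) := by
          refine Nat.mul_le_mul_right _ ?_
          rw [card_wild]
          simp only [hcnt]
          exact hocc
  have g4 : (∏ q ∈ t.leaves.toFinset, G q).totalDegree ≤ g * (s * (e * v)) := by
    refine (totalDegree_finsetProd _ _).trans ?_
    calc ∑ q ∈ t.leaves.toFinset, (G q).totalDegree
        ≤ ∑ q ∈ t.leaves.toFinset, (φ q).invs * (s * (e * v)) := by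
          refine sum_le_sum fun q hq => (g1 q (List.mem_toFinset.1 hq)).trans ?_
          refine Nat.mul_le_mul_left _ (Nat.mul_le_mul_right _ ?_)
          exact (Finset.single_le_sum (f := fun q => (φ q).leaves) (fun _ _ => Nat.zero_le _)
            hq).trans hs
      _ = (∑ q ∈ t.leaves.toFinset, (φ q).invs) * (s * (e * v)) := by rw [Finset.sum_mul]
      _ ≤ g * (s * (e * v)) := Nat.mul_le_mul_right _ hg
  have hdeg : ((∏ q ∈ t.leaves.toFinset, G q) * f).totalDegree ≤ D := by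
    refine (totalDegree_mul _ _).trans ((Nat.add_le_add g4 f3).trans (le_trans (le_of_eq ?_) hD))
    ring
  obtain ⟨z, y, hz, hy, hev⟩ := h12 F m β N D c _ hdeg
    (h13 F m β N c _ _ hGG ⟨z₁, y₁, by rw [f1]; exact hzy⟩)
  refine ⟨gen c z y, mem_hits c hcm z y hz hy, ?_⟩
  rw [map_mul] at hev
  have e1 := left_ne_zero_of_mul hev
  have e2 := right_ne_zero_of_mul hev
  rw [map_prod] at e1
  have e3 : ∀ q ∈ t.leaves, ∃ U, (φ q).Val (fun k => ((gen c z y k : ℕ) : F)) U := fun q hq =>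
    g3 q hq _ (Finset.prod_ne_zero_iff.1 e1 q (List.mem_toFinset.2 hq))
  choose! U' hU' using e3
  have hV1 : ∀ q ∈ t.leaves, (φ q).Val (fun k => ((gen c z y k : ℕ) : F))
      (if q ∈ t.leaves then U' q else 0) := by
    intro q hq
    rw [if_pos hq]
    exact hU' q hq
  have hV0 : ∀ q, q ∉ t.leaves →
      (if q ∈ t.leaves then U' q else (0 : Matrix (Fin v) (Fin v) F)) = 0 := fun q hq => if_neg hq
  refine ⟨_, ⟨fun q => if q ∈ t.leaves then U' q else 0, hV1, hV0, rfl⟩, ?_⟩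
  rw [f1] at e2
  have e4 := (hdet _ _ hV1 hV0).1 e2
  have h3 := Matrix.rank_of_det_ne_zero e4
  rw [Fintype.card_fin] at h3
  rw [hρ, ← h3]
  set A : Matrix (Fin a × Fin v) (Fin b × Fin v) F := Matrix.of fun i j =>
    (fun q => if q ∈ t.leaves then U' q else (0 : Matrix (Fin v) (Fin v) F)) (i.1, j.1) i.2 j.2
    with hA
  have h4 : (Matrix.of fun u u' : Fin ρ =>
      (fun q => if q ∈ t.leaves then U' q else (0 : Matrix (Fin v) (Fin v) F))
        ((I u).1, (J u').1) (I u).2 (J u').2) =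
      (1 : Matrix (Fin a × Fin v) (Fin a × Fin v) F).submatrix I id * A *
        (1 : Matrix (Fin b × Fin v) (Fin b × Fin v) F).submatrix id J := by
    ext i j
    simp [Matrix.mul_apply, Matrix.one_apply, hA]
  rw [h4]
  exact (Matrix.rank_mul_le_left _ _).trans (Matrix.rank_mul_le_right _ _)

end Pool.Agent.Lib.MP_64d474_lc.BX
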