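import Pool.Agent.Lib.MP_64d474_lc.BX.Big99

/-!
# The symbolic matrix of a minor of a block matrix of formulas
-/

set_option autoImplicit false

open Finset Module Matrix

namespace Pool.Agent.Lib.MP_64d474_lc.BX

open Pool.Agent.Lib.MP_64d474_lc.Kal Pool.Agent.Lib.MP_64d474_lc.MG
open Pool.Agent.Lib.MP_64d474_lc.Kal.Net (tmap leaves_tmap)
open Pool.Agent.Lib.MP_64d474_lc.MF (GoodV)

section gen

variable {F : Type*} [Field F] {ι : Type} [Fintype ι] [DecidableEq ι] {E : Type} [Fintype E]
  [DecidableEq E]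

theorem cdim_le (P : E → Matrix ι ι F) (S : Finset E) (R : Finset ι)
    (h : ∀ p ∈ S, ∀ u, u ∉ R → ∀ v, P p u v = 0) : cdim P S ≤ R.card := by
  classical
  have h1 : csp P S ≤ Submodule.span F ((R.image fun u => (Pi.single u 1 : ι → F) :
      Finset (ι → F)) : Set (ι → F)) := by
    refine iSup₂_le fun p hp => ?_
    rintro _ ⟨x, rfl⟩
    have h2 : (P p).mulVecLin x = ∑ u ∈ R, (P p).mulVec x u • (Pi.single u 1 : ι → F) := by
      ext i
      rw [Matrix.mulVecLin_apply, Finset.sum_apply]
      by_cases hi : i ∈ R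
      · rw [Finset.sum_eq_single i]
        · simp
        · intro j _ hj
          simp [Pi.single_apply, hj.symm]
        · intro h3
          exact absurd hi h3
      · rw [Finset.sum_eq_zero]
        · simp only [Matrix.mulVec, dotProduct]
          exact Finset.sum_eq_zero fun v _ => by rw [h p hp i hi v, zero_mul]
        · intro j hj
          have : i ≠ j := fun h3 => hi (h3 ▸ hj)
          simp [Pi.single_apply, this]
    rw [h2]
    refine Submodule.sum_mem _ fun u hu => Submodule.smul_mem _ _ (Submodule.subset_span ?_)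
    exact Finset.mem_coe.2 (Finset.mem_image_of_mem _ hu)
  have h2 := Submodule.finrank_mono h1
  exact h2.trans ((finrank_span_finset_le_card _).trans Finset.card_image_le)

theorem cdim_add_le (P : E → Matrix ι ι F) (w : ℕ) (S : Finset E)
    (R₁ R₂ : Finset ι) (h1 : ∀ p ∈ S, ∀ u, u ∉ R₁ → ∀ v, P p u v = 0)
    (h2 : ∀ p, p ∉ S → ∀ u, u ∉ R₂ → ∀ v, P p u v = 0) (hw : (R₁ ∩ R₂).card ≤ w) :
    cdim P S + cdim P Sᶜ ≤ Fintype.card ι + w := by
  have e1 := cdim_le P S R₁ h1
  have e2 := cdim_le P Sᶜ R₂ fun p hp => h2 p (Finset.mem_compl.1 hp)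
  have e3 := Finset.card_union_add_card_inter R₁ R₂
  have e4 : (R₁ ∪ R₂).card ≤ Fintype.card ι := Finset.card_le_univ _
  omega

theorem good_mono (P : E → Matrix ι ι F) (wild : E → Prop) {w w' : ℕ} (h : w ≤ w') (t : BT E)
    (ht : Good P wild w t) : Good P wild w' t := by
  have hs : ∀ L, Kal.Sep P wild w L → Kal.Sep P wild w' L := by
    rintro L ⟨C, h1, h2, h3⟩
    exact ⟨C, h1, h2.trans (Nat.add_le_add_left h _), h3.trans (Nat.add_le_add_left h _)⟩
  induction t with
  | nil => trivial
  | leaf p => exact hs _ ht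
  | node l r hl hr => exact ⟨hl ht.1, hr ht.2.1, hs _ ht.2.2⟩

end gen

/-- every leaf is replaced by a tree -/
def expand {E E' : Type} (τ : E' → BT E) : BT E' → BT E
  | .nil => .nil
  | .leaf q => τ q
  | .node l r => .node (expand τ l) (expand τ r)

theorem leaves_expand {E E' : Type} (τ : E' → BT E) (t : BT E') :
    (expand τ t).leaves = t.leaves.flatMap fun q => (τ q).leaves := by
  induction t with
  | nil => rfl
  | leaf q =>
    show (τ q).leaves = _
    simp [BT.leaves]
  | node l r hl hr =>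
    show (expand τ l).leaves ++ (expand τ r).leaves = _
    rw [hl, hr]
    simp [BT.leaves]

section pos

variable {F : Type*} [Field F] {a b v m ρ : ℕ} {Q : Type} [Fintype Q] [DecidableEq Q]
  (π : Q → Fin a × Fin b) {ι E : Q → Type}
  [∀ q, Fintype (ι q)] [∀ q, DecidableEq (ι q)] [∀ q, Fintype (E q)] [∀ q, DecidableEq (E q)]

/-- the selection of the rows -/
def selS (I : Fin ρ → Fin a × Fin v) (q : Q) : Matrix (Fin ρ) (Fin v) F :=
  Matrix.of fun u α => if I u = ((π q).1, α) then 1 else 0

/-- the selection of the columns -/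
def selT (J : Fin ρ → Fin b × Fin v) (q : Q) : Matrix (Fin v) (Fin ρ) F :=
  Matrix.of fun β u => if J u = ((π q).2, β) then 1 else 0

open Classical in
/-- the coordinates of the blocks with positions in `L` and of the rows in `R` -/
noncomputable def coord {c : ℕ} (I : Fin ρ → Fin c × Fin v) (L : Fin a × Fin b → Prop)
    (R : Finset (Fin c)) : Finset ((Σ q, ι q) ⊕ Fin ρ) :=
  univ.filter fun i => Sum.elim (fun i : Σ q, ι q => L (π i.1)) (fun u => (I u).1 ∈ R) i

theorem card_coord {c : ℕ} (I : Fin ρ → Fin c × Fin v) (hI : Function.Injective I)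
    (L : Fin a × Fin b → Prop) (R₁ R₂ : Finset (Fin c)) (w : ℕ) (h : (R₁ ∩ R₂).card ≤ w) :
    (coord (ι := ι) π I L R₁ ∩ coord π I (fun q => ¬ L q) R₂).card ≤ v * w := by
  classical
  have h1 : coord (ι := ι) π I L R₁ ∩ coord π I (fun q => ¬ L q) R₂ ⊆
      (univ.filter fun u => (I u).1 ∈ R₁ ∩ R₂).map ⟨Sum.inr, Sum.inr_injective⟩ := by
    intro i hi
    rw [Finset.mem_inter, coord, coord, Finset.mem_filter, Finset.mem_filter] at hi
    obtain ⟨⟨-, h2⟩, -, h3⟩ := hi
    rcases i with i | u
    · exact absurd h2 h3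
    · rw [Finset.mem_map]
      exact ⟨u, Finset.mem_filter.2 ⟨Finset.mem_univ _, Finset.mem_inter.2 ⟨h2, h3⟩⟩, rfl⟩
  refine (Finset.card_le_card h1).trans ?_
  rw [Finset.card_map]
  have h2 : (univ.filter fun u => (I u).1 ∈ R₁ ∩ R₂).card ≤
      ((R₁ ∩ R₂) ×ˢ (univ : Finset (Fin v))).card := by
    refine Finset.card_le_card_of_injOn I ?_ hI.injOn
    intro u hu
    rw [Finset.mem_coe, Finset.mem_filter] at hu
    rw [Finset.mem_coe, Finset.mem_product]
    exact ⟨hu.2, Finset.mem_univ _⟩
  refine h2.trans ?_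
  rw [Finset.card_product, Finset.card_univ, Fintype.card_fin, mul_comm]
  exact Nat.mul_le_mul_left _ h

/-- the nonzero rows of a piece -/
theorem PP_row (P : ∀ q, E q → Matrix (ι q) (ι q) F) (U V : ∀ q, Matrix (ι q) (Fin v) F)
    (I : Fin ρ → Fin a × Fin v) (J : Fin ρ → Fin b × Fin v) (p : Σ q, (E q ⊕ Unit))
    (i j : (Σ q, ι q) ⊕ Fin ρ) (h : PP P U V (selS π I) (selT π J) p i j ≠ 0) :
    Sum.elim (fun i : Σ q, ι q => i.1 = p.1) (fun u => (I u).1 = (π p.1).1) i ∧
    Sum.elim (fun i : Σ q, ι q => i.1 = p.1) (fun u => (J u).1 = (π p.1).2) j := by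
  obtain ⟨q, p | p⟩ := p
  · rcases i with ⟨q₁, i⟩ | u <;> rcases j with ⟨q₂, j⟩ | u'
    · have h1 : blockDiagonal' (Pi.single q (P q p) : ∀ q', Matrix (ι q') (ι q') F)
        ⟨q₁, i⟩ ⟨q₂, j⟩ ≠ 0 := h
      constructor
      · show q₁ = q
        by_contra hne
        exact h1 (bd_single q _ _ _ _ _ (Or.inl hne))
      · show q₂ = q
        by_contra hne
        exact h1 (bd_single q _ _ _ _ _ (Or.inr hne))
    · exact absurd rfl h
    · exact absurd rfl h
    · exact absurd rfl h
  · rcases i with ⟨q₁, i⟩ | u <;> rcases j with ⟨q₂, j⟩ | u'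
    · exact absurd rfl h
    · have h1 : vc (Pi.single q ((V q * selT (F := F) π J q : Matrix (ι q) (Fin ρ) F)) :
          ∀ q', Matrix (ι q') (Fin ρ) F) ⟨q₁, i⟩ u' ≠ 0 := h
      rw [vc, Matrix.of_apply] at h1
      have h2 : q₁ = q := by
        by_contra hne
        rw [Pi.single_eq_of_ne hne] at h1
        exact h1 rfl
      refine ⟨h2, ?_⟩
      subst h2
      rw [Pi.single_eq_same, Matrix.mul_apply] at h1
      obtain ⟨β, -, hβ⟩ := Finset.exists_ne_zero_of_sum_ne_zero h1
      have h3 : selT (F := F) π J q₁ β u' ≠ 0 := right_ne_zero_of_mul hβ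
      rw [selT, Matrix.of_apply] at h3
      show (J u').1 = (π q₁).2
      by_contra hne
      rw [if_neg (fun h4 => hne (congrArg Prod.fst h4))] at h3
      exact h3 rfl
    · have h1 : -vc (Pi.single q ((U q * (selS (F := F) π I q)ᵀ : Matrix (ι q) (Fin ρ) F)) :
          ∀ q', Matrix (ι q') (Fin ρ) F) ⟨q₂, j⟩ u ≠ 0 := h
      rw [vc, Matrix.of_apply] at h1
      have h2 : q₂ = q := by
        by_contra hne
        rw [Pi.single_eq_of_ne hne] at h1
        exact h1 (by simp)
      refine ⟨?_, h2⟩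
      subst h2
      rw [Pi.single_eq_same, neg_ne_zero, Matrix.mul_apply] at h1
      obtain ⟨β, -, hβ⟩ := Finset.exists_ne_zero_of_sum_ne_zero h1
      have h3 : selS (F := F) π I q₂ u β ≠ 0 := right_ne_zero_of_mul hβ
      rw [selS, Matrix.of_apply] at h3
      show (I u).1 = (π q₂).1
      by_contra hne
      rw [if_neg (fun h4 => hne (congrArg Prod.fst h4))] at h3
      exact h3 rfl
    · exact absurd rfl h

/-- the cuts of the nodes -/
theorem cut_PP (P : ∀ q, E q → Matrix (ι q) (ι q) F) (U V : ∀ q, Matrix (ι q) (Fin v) F)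
    (I : Fin ρ → Fin a × Fin v) (J : Fin ρ → Fin b × Fin v) (hI : Function.Injective I)
    (hJ : Function.Injective J) (w : ℕ) (L : Fin a × Fin b → Prop) [DecidablePred L]
    (R₁ R₂ : Finset (Fin a)) (C₁ C₂ : Finset (Fin b))
    (h1 : ∀ q, L (π q) → (π q).1 ∈ R₁ ∧ (π q).2 ∈ C₁)
    (h2 : ∀ q, ¬ L (π q) → (π q).1 ∈ R₂ ∧ (π q).2 ∈ C₂)
    (hr : (R₁ ∩ R₂).card ≤ w) (hc : (C₁ ∩ C₂).card ≤ w) :
    Cut (PP P U V (selS π I) (selT π J)) (v * w) (univ.filter fun p => L (π p.1)) := by
  classical
  constructor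
  · refine cdim_add_le _ _ _ (coord π I L R₁) (coord π I (fun q => ¬ L q) R₂) ?_ ?_
      (card_coord π I hI L R₁ R₂ w hr)
    · intro p hp i hi j
      by_contra h0
      have h3 := (PP_row π P U V I J p i j h0).1
      have hp' := (Finset.mem_filter.1 hp).2
      apply hi
      rw [coord, Finset.mem_filter]
      refine ⟨Finset.mem_univ _, ?_⟩
      rcases i with i | u
      · have h4 : i.1 = p.1 := h3
        show L (π i.1)
        rw [h4]
        exact hp'
      · have h4 : (I u).1 = (π p.1).1 := h3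
        show (I u).1 ∈ R₁
        rw [h4]
        exact (h1 p.1 hp').1
    · intro p hp i hi j
      by_contra h0
      have h3 := (PP_row π P U V I J p i j h0).1
      have hp' : ¬ L (π p.1) := fun h5 => hp (Finset.mem_filter.2 ⟨Finset.mem_univ _, h5⟩)
      apply hi
      rw [coord, Finset.mem_filter]
      refine ⟨Finset.mem_univ _, ?_⟩
      rcases i with i | u
      · have h4 : i.1 = p.1 := h3
        show ¬ L (π i.1)
        rw [h4]
        exact hp'
      · have h4 : (I u).1 = (π p.1).1 := h3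
        show (I u).1 ∈ R₂
        rw [h4]
        exact (h2 p.1 hp').1
  · refine cdim_add_le (fun p => (PP P U V (selS π I) (selT π J) p).transpose) _ _
      (coord π J L C₁) (coord π J (fun q => ¬ L q) C₂) ?_ ?_
      (card_coord π J hJ L C₁ C₂ w hc)
    · intro p hp i hi j
      by_contra h0
      rw [Matrix.transpose_apply] at h0
      have h3 := (PP_row π P U V I J p j i h0).2
      have hp' := (Finset.mem_filter.1 hp).2
      apply hi
      rw [coord, Finset.mem_filter]
      refine ⟨Finset.mem_univ _, ?_⟩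
      rcases i with i | u
      · have h4 : i.1 = p.1 := h3
        show L (π i.1)
        rw [h4]
        exact hp'
      · have h4 : (J u).1 = (π p.1).2 := h3
        show (J u).1 ∈ C₁
        rw [h4]
        exact (h1 p.1 hp').2
    · intro p hp i hi j
      by_contra h0
      rw [Matrix.transpose_apply] at h0
      have h3 := (PP_row π P U V I J p j i h0).2
      have hp' : ¬ L (π p.1) := fun h5 => hp (Finset.mem_filter.2 ⟨Finset.mem_univ _, h5⟩)
      apply hi
      rw [coord, Finset.mem_filter]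
      refine ⟨Finset.mem_univ _, ?_⟩
      rcases i with i | u
      · have h4 : i.1 = p.1 := h3
        show ¬ L (π i.1)
        rw [h4]
        exact hp'
      · have h4 : (J u).1 = (π p.1).2 := h3
        show (J u).1 ∈ C₂
        rw [h4]
        exact (h2 p.1 hp').2

/-- the ranks of the pieces -/
theorem rank_single (q : Q) (A : Matrix (ι q) (ι q) F) :
    (blockDiagonal' (Pi.single q A : ∀ q', Matrix (ι q') (ι q') F)).rank ≤ A.rank := by
  classical
  have h : blockDiagonal' (Pi.single q A : ∀ q', Matrix (ι q') (ι q') F) =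
      (Matrix.of fun (i : Σ q, ι q) (j : ι q) =>
        (Pi.single q (1 : Matrix (ι q) (ι q) F) : ∀ q', Matrix (ι q') (ι q) F) i.1 i.2 j) * (A *
      (Matrix.of fun (i : Σ q, ι q) (j : ι q) =>
        (Pi.single q (1 : Matrix (ι q) (ι q) F) : ∀ q', Matrix (ι q') (ι q) F) i.1 i.2 j)ᵀ) := by
    ext ⟨q₁, i⟩ ⟨q₂, j⟩
    by_cases h1 : q₁ = q
    · subst h1
      by_cases h2 : q₂ = q₁
      · subst h2
        rw [blockDiagonal'_apply_eq, Pi.single_eq_same, Matrix.mul_apply]
        simp only [Matrix.of_apply, Pi.single_eq_same, Matrix.mul_apply, Matrix.transpose_apply,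
          Matrix.one_apply]
        simp
      · rw [bd_single q₁ A _ _ _ _ (Or.inr h2), Matrix.mul_apply]
        symm
        refine Finset.sum_eq_zero fun c _ => ?_
        rw [Matrix.mul_apply, Finset.sum_eq_zero, mul_zero]
        intro c' _
        rw [Matrix.transpose_apply, Matrix.of_apply, Pi.single_eq_of_ne h2]
        simp
    · rw [bd_single q A _ _ _ _ (Or.inl h1), Matrix.mul_apply]
      symm
      refine Finset.sum_eq_zero fun c _ => ?_
      rw [Matrix.of_apply, Pi.single_eq_of_ne h1]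
      simp
  rw [h]
  exact (Matrix.rank_mul_le_right _ _).trans (Matrix.rank_mul_le_left _ _)

end pos

end Pool.Agent.Lib.MP_64d474_lc.BX
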